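import Pool.Agent.N119.PS.Stm

set_option autoImplicit false

/-!
# PSC/BCL: bounded cancellation (helper123)
-/

namespace Pool.Agent.N123.PSC

open Pool.Agent.H472R3 Pool.Agent.H67R3.FSR Pool.Agent.N119.PS

variable {N : ℕ}

theorem norm_junction {g h : FreeGroup (Fin N)}
    (hd : ∀ x ∈ g.toWord.head?, ∀ y ∈ h.toWord.head?, x ≠ y) :
    (g⁻¹ * h).norm = g.norm + h.norm := by
  have h1 := isReduced_junction (FreeGroup.isReduced_toWord (x := g))
    (FreeGroup.isReduced_toWord (x := h)) hd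
  have h2 : g⁻¹ * h = FreeGroup.mk (FreeGroup.invRev g.toWord ++ h.toWord) := by
    rw [← FreeGroup.mul_mk, ← FreeGroup.inv_mk, FreeGroup.mk_toWord, FreeGroup.mk_toWord]
  rw [h2]
  unfold FreeGroup.norm
  rw [FreeGroup.toWord_mk, h1.reduce_eq, List.length_append, FreeGroup.invRev_length]

theorem Q_split (p : (Lt N → ℝ) × (Lt N × Lt N → ℝ)) {P : ℝ} (hP0 : 0 ≤ P)
    (hP : ∀ q, p.2 q ≤ P) (l m : List (Lt N)) :
    Q p l + Q p m ≤ Q p (l ++ m) + 2 * P := by
  rcases List.eq_nil_or_concat l with h | ⟨l1, z, h⟩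
  · subst h
    have e : Q p [] = 0 := rfl
    rw [e, List.nil_append]
    linarith
  · cases m with
    | nil =>
      have e : Q p [] = 0 := rfl
      rw [e, List.append_nil]
      linarith
    | cons a l2 =>
      rw [h, List.concat_eq_append, Q_append]
      have := hP (z, a)
      linarith

theorem crossing (φ : FreeGroup (Fin N) ≃* FreeGroup (Fin N)) {K : ℕ}
    (hK : ∀ a : Lt N, (φ (lt a)).norm ≤ K) {u v : FreeGroup (Fin N)}
    (huv : FreeGroup.IsReduced (u.toWord ++ v.toWord)) :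
    ∃ i, (u⁻¹ * φ (FreeGroup.mk ((φ.symm (u * v)).toWord.take i))).norm ≤ K := by
  classical
  set w := (φ.symm (u * v)).toWord with hw
  have hn : u⁻¹ * φ (FreeGroup.mk (w.take w.length)) = v := by
    rw [List.take_length, hw, FreeGroup.mk_toWord, MulEquiv.apply_symm_apply, inv_mul_cancel_left]
  have h0 : u⁻¹ * φ (FreeGroup.mk (w.take 0)) = u⁻¹ := by
    rw [List.take_zero]
    have : (FreeGroup.mk [] : FreeGroup (Fin N)) = 1 := rfl
    rw [this, map_one, mul_one]
  by_cases hu : u = 1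
  · refine ⟨0, ?_⟩
    rw [h0, hu, inv_one, FreeGroup.norm_one]
    exact Nat.zero_le _
  by_cases hv : v = 1
  · refine ⟨w.length, ?_⟩
    rw [hn, hv, FreeGroup.norm_one]
    exact Nat.zero_le _
  obtain ⟨a, l, hvw⟩ := exists_cons hv
  obtain ⟨b, l', huw⟩ := exists_cons hu
  have hex : ∃ i, (u⁻¹ * φ (FreeGroup.mk (w.take i))).toWord.head? = some a :=
    ⟨w.length, by rw [hn, hvw]; rfl⟩
  have hP0 : ¬ (u⁻¹ * φ (FreeGroup.mk (w.take 0))).toWord.head? = some a := by
    rw [h0]
    obtain ⟨m, hm⟩ := toWord_inv_cons huw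
    rw [hm]
    intro he
    have he' : inv' ((b :: l').getLast (by simp)) = a := by
      simpa using he
    rw [huw, hvw] at huv
    unfold FreeGroup.IsReduced at huv
    rw [List.isChain_append] at huv
    have h3 := huv.2.2 ((b :: l').getLast (by simp))
      (by rw [List.getLast?_eq_getLast_of_ne_nil (by simp)]; rfl) a (by simp)
    exact reduced_iff.mp h3 he'.symm
  obtain ⟨j, hj⟩ : ∃ j, Nat.find hex = j + 1 := by
    refine Nat.exists_eq_succ_of_ne_zero ?_
    intro h
    have := Nat.find_spec hex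
    rw [h] at this
    exact hP0 this
  have h1 := Nat.find_spec hex
  have h2 := Nat.find_min hex (m := j) (by omega)
  rw [hj] at h1
  refine ⟨j + 1, ?_⟩
  have h3 := norm_junction (g := u⁻¹ * φ (FreeGroup.mk (w.take j)))
    (h := u⁻¹ * φ (FreeGroup.mk (w.take (j + 1)))) (by
      intro x hx y hy hxy
      rw [h1] at hy
      rw [Option.mem_def, Option.some.injEq] at hy
      apply h2
      rw [hy, ← hxy]
      exact hx)
  have h4 : (u⁻¹ * φ (FreeGroup.mk (w.take j)))⁻¹ * (u⁻¹ * φ (FreeGroup.mk (w.take (j + 1)))) =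
      φ ((FreeGroup.mk (w.take j))⁻¹ * FreeGroup.mk (w.take (j + 1))) := by
    rw [map_mul, map_inv]
    group
  rw [h4, List.take_add_one, ← FreeGroup.mul_mk, inv_mul_cancel_left] at h3
  rw [List.take_add_one, ← FreeGroup.mul_mk]
  have h5 : (φ (FreeGroup.mk (w[j]?.toList))).norm ≤ K := by
    cases hc : w[j]? with
    | none =>
      have : (FreeGroup.mk (Option.toList (none : Option (Lt N))) : FreeGroup (Fin N)) = 1 := rfl
      rw [this, map_one, FreeGroup.norm_one]
      exact Nat.zero_le _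
    | some c => exact hK c
  omega

theorem t : S_BCL := by
  intro N A hA x
  set ℓ := lenFn A x with hℓ
  obtain ⟨φ, hφ⟩ := nielsen ℓ (fun g hg => hyperbolic A hA.1 x g hg) (fun R => proper A hA x R)
  have hform := formula_list ℓ φ hφ
  set p : (Lt N → ℝ) × (Lt N × Lt N → ℝ) :=
    (fun a => ℓ.L (φ (lt a)), fun q => G ℓ (φ (lt q.1))⁻¹ (φ (lt q.2))) with hp
  have hp2 : ∀ q, 0 ≤ p.2 q := fun q => G_nonneg ℓ _ _
  set P : ℝ := ∑ q, p.2 q with hPdef
  have hP0 : 0 ≤ P := Finset.sum_nonneg fun q _ => hp2 q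
  have hP : ∀ q, p.2 q ≤ P := fun q =>
    Finset.single_le_sum (f := fun q => p.2 q) (fun q _ => hp2 q) (Finset.mem_univ q)
  set K : ℕ := ∑ a : Lt N, (φ (lt a)).norm with hKdef
  have hK : ∀ a : Lt N, (φ (lt a)).norm ≤ K := fun a =>
    Finset.single_le_sum (f := fun a : Lt N => (φ (lt a)).norm) (fun _ _ => Nat.zero_le _)
      (Finset.mem_univ a)
  set K' : ℝ := ∑ g ∈ (finite_norm_le (N := N) K).toFinset, ℓ.L g with hK'def
  have hK' : ∀ g : FreeGroup (Fin N), g.norm ≤ K → ℓ.L g ≤ K' := fun g hg =>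
    Finset.single_le_sum (f := fun g => ℓ.L g) (fun g _ => L_nonneg ℓ g)
      ((Set.Finite.mem_toFinset _).mpr hg)
  have hK'0 : 0 ≤ K' := Finset.sum_nonneg fun g _ => L_nonneg ℓ g
  refine ⟨P + K', by positivity, fun u v huv => ?_⟩
  obtain ⟨i, hi⟩ := crossing φ hK huv
  set w := (φ.symm (u * v)).toWord with hw
  have hred : FreeGroup.IsReduced w := FreeGroup.isReduced_toWord
  have hwv : φ (FreeGroup.mk w) = u * v := by
    rw [hw, FreeGroup.mk_toWord, MulEquiv.apply_symm_apply]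
  have hred1 : FreeGroup.IsReduced (w.take i) := by
    unfold FreeGroup.IsReduced at hred ⊢
    exact hred.take i
  have hred2 : FreeGroup.IsReduced (w.drop i) := by
    unfold FreeGroup.IsReduced at hred ⊢
    exact hred.drop i
  have e0 := hform w hred
  have e1 := hform (w.take i) hred1
  have e2 := hform (w.drop i) hred2
  have e3 := Q_split p hP0 hP (w.take i) (w.drop i)
  rw [List.take_append_drop, ← e0, ← e1, ← e2, hwv] at e3
  set p1 := φ (FreeGroup.mk (w.take i)) with hp1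
  set s := φ (FreeGroup.mk (w.drop i)) with hs
  have hps : p1 * s = u * v := by
    rw [hp1, hs, ← map_mul, FreeGroup.mul_mk, List.take_append_drop, hwv]
  have h1 : ℓ.L u ≤ ℓ.L p1 + ℓ.L (u⁻¹ * p1) := by
    have := tri ℓ p1 (u⁻¹ * p1)⁻¹
    rw [ℓ.inv, mul_inv_rev, inv_inv, mul_inv_cancel_left] at this
    exact this
  have h2 : ℓ.L v ≤ ℓ.L (u⁻¹ * p1) + ℓ.L s := by
    have := tri ℓ (u⁻¹ * p1) s
    rw [mul_assoc, hps, inv_mul_cancel_left] at this
    exact this
  have h3 := hK' _ hi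
  linarith

end Pool.Agent.N123.PSC
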